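import Mathlib

set_option autoImplicit false

namespace Pool.Agent.Results.MP_4faf9f_co.FineProducts

open Finset Equiv

/-- The descent set of `π`, with positions numbered `0, …, n-1`: the set of all `i` with
`i + 1 < n` and `π(i) > π(i+1)`. -/
def Des {n : ℕ} (π : Perm (Fin n)) : Finset ℕ :=
  (range n).filter fun i => ∃ h : i + 1 < n, π ⟨i + 1, h⟩ < π ⟨i, Nat.lt_of_succ_lt h⟩

/-- Gessel's fundamental quasisymmetric function `F_{n,D}` as a power series in the variables
`x_0, x_1, …`: the coefficient at the monomial `x^a` is the number of sequences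
`v_0 ≤ v_1 ≤ ⋯ ≤ v_{n-1}` with `v_i < v_{i+1}` for `i ∈ D` and `x_{v_0} ⋯ x_{v_{n-1}} = x^a`. -/
noncomputable def Fund (n : ℕ) (D : Finset ℕ) : MvPowerSeries ℕ ℤ := fun a =>
  (Nat.card {v : Fin n → ℕ // Monotone v ∧
    (∀ i ∈ D, ∀ h : i + 1 < n, v ⟨i, Nat.lt_of_succ_lt h⟩ < v ⟨i + 1, h⟩) ∧
    ∑ j, Finsupp.single (v j) 1 = a} : ℤ)

/-- `Q(A) = ∑_{π ∈ A} F_{n,Des(π)}`, counted with multiplicity. -/
noncomputable def Q {n : ℕ} (A : Multiset (Perm (Fin n))) : MvPowerSeries ℕ ℤ :=
  (A.map fun π => Fund n (Des π)).sum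

/-- A power series is symmetric if its coefficients do not change when the variables are
permuted. -/
def IsSymm (f : MvPowerSeries ℕ ℤ) : Prop :=
  ∀ (e : Perm ℕ) (a : ℕ →₀ ℕ), MvPowerSeries.coeff (a.mapDomain e) f = MvPowerSeries.coeff a f

/-- The inverse descent class `D_{n,J}^{-1}`. -/
def invDes (n : ℕ) (J : Finset ℕ) : Finset (Perm (Fin n)) :=
  univ.filter fun π => Des π⁻¹ = J

/-- The product of two sets of permutations as a multiset, `{ab : a ∈ A, b ∈ B}`. -/
def mprod {n : ℕ} (A B : Finset (Perm (Fin n))) : Multiset (Perm (Fin n)) :=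
  (A ×ˢ B).val.map fun p => p.1 * p.2

/-! ### Words and contents -/

variable {n : ℕ}

/-- content of a word -/
noncomputable def cont (v : Fin n → ℕ) : ℕ →₀ ℕ := ∑ j, Finsupp.single (v j) 1

lemma cont_apply (v : Fin n → ℕ) (k : ℕ) :
    cont v k = (univ.filter fun i => v i = k).card := by
  unfold cont
  rw [Finsupp.finsetSum_apply, Finset.card_filter]
  refine Finset.sum_congr rfl fun i _ => ?_
  rw [Finsupp.single_apply]

lemma cont_map (v : Fin n → ℕ) (f : ℕ → ℕ) : (cont v).mapDomain f = cont (fun i => f (v i)) := by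
  unfold cont
  rw [Finsupp.mapDomain_finsetSum]
  simp [Finsupp.mapDomain_single]

lemma cont_comp (v : Fin n → ℕ) (σ : Perm (Fin n)) : cont (fun i => v (σ i)) = cont v := by
  unfold cont
  exact Equiv.sum_comp σ (fun j => Finsupp.single (v j) 1)

lemma card_le_eq (v : Fin n → ℕ) (a : ℕ) :
    (univ.filter fun i => v i ≤ a).card = ∑ k ∈ range (a + 1), cont v k := by
  simp only [cont_apply]
  rw [← Finset.card_biUnion]
  · congr 1
    ext i
    simp only [mem_filter, mem_univ, true_and, mem_biUnion, mem_range]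
    constructor
    · intro h; exact ⟨v i, by omega, rfl⟩
    · rintro ⟨k, h1, h2⟩; omega
  · intro x _ y _ hxy
    rw [Function.onFun, Finset.disjoint_left]
    intro i h1 h2
    rw [mem_filter] at h1 h2
    exact hxy (h1.2.symm.trans h2.2)

lemma mono_unique (v w : Fin n → ℕ) (hv : Monotone v) (hw : Monotone w) (h : cont v = cont w) :
    v = w := by
  funext j
  have key : ∀ a, v j ≤ a ↔ w j ≤ a := by
    intro a
    rw [← Tuple.lt_card_le_iff_apply_le_of_monotone hv,
      ← Tuple.lt_card_le_iff_apply_le_of_monotone hw, card_le_eq, card_le_eq, h]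
  exact le_antisymm ((key _).mpr le_rfl) ((key _).mp le_rfl)

/-- `v` is strictly increasing at the descents of `u`. -/
def SS (v : Fin n → ℕ) (u : Fin n → Fin n) : Prop :=
  ∀ (i : ℕ) (h : i + 1 < n),
    v ⟨i, Nat.lt_of_succ_lt h⟩ < v ⟨i + 1, h⟩ ∨ u ⟨i, Nat.lt_of_succ_lt h⟩ < u ⟨i + 1, h⟩

lemma SS_iff (v : Fin n → ℕ) (u : Perm (Fin n)) : SS v u ↔
    (∀ i ∈ Des u, ∀ h : i + 1 < n, v ⟨i, Nat.lt_of_succ_lt h⟩ < v ⟨i + 1, h⟩) := by
  unfold SS Des
  constructor
  · intro h i hi h1
    rw [mem_filter] at hi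
    obtain ⟨_, _, h3⟩ := hi
    rcases h i h1 with h4 | h4
    · exact h4
    · exact absurd h3 (not_lt.mpr h4.le)
  · intro h i h1
    by_cases h2 : u ⟨i + 1, h1⟩ < u ⟨i, Nat.lt_of_succ_lt h1⟩
    · left
      apply h i _ h1
      rw [mem_filter, mem_range]
      exact ⟨by omega, h1, h2⟩
    · right
      refine lt_of_le_of_ne (not_lt.mp h2) ?_
      intro hc
      have := u.injective hc
      have := congrArg Fin.val this
      simp at this

open Classical in
lemma coeff_Fund (v : Fin n → ℕ) (hv : Monotone v) (u : Perm (Fin n)) :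
    MvPowerSeries.coeff (cont v) (Fund n (Des u)) = if SS v u then 1 else 0 := by
  show (Nat.card {w : Fin n → ℕ // Monotone w ∧
    (∀ i ∈ Des u, ∀ h : i + 1 < n, w ⟨i, Nat.lt_of_succ_lt h⟩ < w ⟨i + 1, h⟩) ∧
    cont w = cont v} : ℤ) = _
  by_cases h : SS v u
  · rw [if_pos h]
    have : Nat.card {w : Fin n → ℕ // Monotone w ∧
        (∀ i ∈ Des u, ∀ h : i + 1 < n, w ⟨i, Nat.lt_of_succ_lt h⟩ < w ⟨i + 1, h⟩) ∧
        cont w = cont v} = 1 := by
      rw [Nat.card_eq_one_iff_unique]
      refine ⟨⟨fun a b => ?_⟩, ⟨⟨v, hv, (SS_iff v u).mp h, rfl⟩⟩⟩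
      apply Subtype.ext
      exact mono_unique _ _ a.2.1 b.2.1 (a.2.2.2.trans b.2.2.2.symm)
    rw [this]; rfl
  · rw [if_neg h]
    have : Nat.card {w : Fin n → ℕ // Monotone w ∧
        (∀ i ∈ Des u, ∀ h : i + 1 < n, w ⟨i, Nat.lt_of_succ_lt h⟩ < w ⟨i + 1, h⟩) ∧
        cont w = cont v} = 0 := by
      rw [Nat.card_eq_zero]
      left
      refine ⟨fun a => ?_⟩
      have h1 := mono_unique _ _ a.2.1 hv a.2.2.2
      apply h
      rw [SS_iff, ← h1]
      exact a.2.2.1
    rw [this]; rfl

lemma coeff_Fund_zero (a : ℕ →₀ ℕ) (ha : ∀ v : Fin n → ℕ, Monotone v → cont v ≠ a)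
    (D : Finset ℕ) : MvPowerSeries.coeff a (Fund n D) = 0 := by
  show (Nat.card {w : Fin n → ℕ // Monotone w ∧
    (∀ i ∈ D, ∀ h : i + 1 < n, w ⟨i, Nat.lt_of_succ_lt h⟩ < w ⟨i + 1, h⟩) ∧
    cont w = a} : ℤ) = 0
  have : Nat.card {w : Fin n → ℕ // Monotone w ∧
        (∀ i ∈ D, ∀ h : i + 1 < n, w ⟨i, Nat.lt_of_succ_lt h⟩ < w ⟨i + 1, h⟩) ∧
        cont w = a} = 0 := by
    rw [Nat.card_eq_zero]
    left
    exact ⟨fun w => ha w.1 w.2.1 w.2.2.2⟩
  rw [this]; rfl

/-! ### Standardisation -/

lemma mono_of_adj (z : Fin n → ℕ)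
    (h : ∀ (i : ℕ) (h : i + 1 < n), z ⟨i, Nat.lt_of_succ_lt h⟩ ≤ z ⟨i + 1, h⟩) : Monotone z := by
  have key : ∀ (i j : ℕ) (hij : i ≤ j) (hj : j < n), z ⟨i, lt_of_le_of_lt hij hj⟩ ≤ z ⟨j, hj⟩ := by
    intro i j hij
    induction j, hij using Nat.le_induction with
    | base => intro _; exact le_rfl
    | succ j hij ih => intro hj; exact (ih (by omega)).trans (h j hj)
  intro a b hab
  exact key a b hab b.2

lemma tie (v : Fin n → ℕ) (hv : Monotone v) (u : Fin n → Fin n) (h : SS v u) (a b : Fin n)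
    (hab : a < b) (he : v a = v b) : u a < u b := by
  have key : ∀ (i j : ℕ) (hij : i < j) (hj : j < n),
      v ⟨i, lt_trans hij hj⟩ = v ⟨j, hj⟩ → u ⟨i, lt_trans hij hj⟩ < u ⟨j, hj⟩ := by
    intro i j hij
    induction j, hij using Nat.le_induction with
    | base =>
      intro hj he
      rcases h i hj with h1 | h1
      · exact absurd he h1.ne
      · exact h1
    | succ j hij ih =>
      intro hj he
      have h1 : v ⟨i, by omega⟩ ≤ v ⟨j, by omega⟩ := hv (by
        show i ≤ j
        omega)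
      have h2 : v ⟨j, by omega⟩ ≤ v ⟨j + 1, hj⟩ := hv (by
        show j ≤ j + 1
        omega)
      have h3 := ih (by omega) (le_antisymm h1 (by rw [he]; exact h2))
      rcases h j hj with h4 | h4
      · omega
      · exact h3.trans h4
  exact key a b hab b.2 he

lemma eq_sort (v : Fin n → ℕ) (hv : Monotone v) (u : Perm (Fin n)) (h : SS v u) :
    u = Tuple.sort (fun p => v (u.symm p)) := by
  rw [Tuple.eq_sort_iff]
  constructor
  · intro a b hab
    simp only [Function.comp, symm_apply_apply]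
    exact hv hab
  · intro i j hij he
    simp only [symm_apply_apply] at he
    exact tie v hv u h i j hij he

/-- words with letters below `N * N` -/
def WW (n N : ℕ) : Finset (Fin n → ℕ) := Fintype.piFinset fun _ => range (N * N)

lemma mem_WW (N : ℕ) (z : Fin n → ℕ) : z ∈ WW n N ↔ ∀ i, z i < N * N := by
  unfold WW
  rw [Fintype.mem_piFinset]
  simp only [mem_range]

open Classical in
lemma main_count (N : ℕ) (v v' : Fin n → ℕ) (hv : Monotone v) (hv' : Monotone v')
    (hN : ∀ i, v i < N) (hN' : ∀ i, v' i < N) (b : Perm (Fin n)) :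
    (univ.filter fun u : Perm (Fin n) => SS v u ∧ SS v' (fun i => u.symm (b i))).card =
    ((WW n N).filter fun z => Monotone z ∧ SS z b ∧ cont (fun i => z i / N) = cont v' ∧
      cont (fun i => z i % N) = cont v).card := by
  have hdiv : ∀ i x, x < N → (v' i * N + x) / N = v' i := by
    intro i x hx
    have h0 : 0 < N := by omega
    rw [mul_comm, Nat.mul_add_div h0, Nat.div_eq_of_lt hx]; rfl
  have hmod : ∀ i x, x < N → (v' i * N + x) % N = x := by
    intro i x hx
    rw [mul_comm, Nat.mul_add_mod, Nat.mod_eq_of_lt hx]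
  refine Finset.card_bij (fun u _ => fun i => v' i * N + v (u.symm (b i))) ?_ ?_ ?_
  · intro u hu
    rw [mem_filter] at hu
    obtain ⟨_, h1, h2⟩ := hu
    rw [mem_filter, mem_WW]
    have hadj : ∀ (i : ℕ) (h : i + 1 < n),
        (v' ⟨i, Nat.lt_of_succ_lt h⟩ * N + v (u.symm (b ⟨i, Nat.lt_of_succ_lt h⟩)) <
          v' ⟨i + 1, h⟩ * N + v (u.symm (b ⟨i + 1, h⟩))) ∨
        (v' ⟨i, Nat.lt_of_succ_lt h⟩ * N + v (u.symm (b ⟨i, Nat.lt_of_succ_lt h⟩)) =
          v' ⟨i + 1, h⟩ * N + v (u.symm (b ⟨i + 1, h⟩)) ∧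
          b ⟨i, Nat.lt_of_succ_lt h⟩ < b ⟨i + 1, h⟩) := by
      intro i h
      have m1 : v' ⟨i, Nat.lt_of_succ_lt h⟩ ≤ v' ⟨i + 1, h⟩ := hv' (by
        show i ≤ i + 1
        omega)
      rcases m1.lt_or_eq with h3 | h3
      · left
        have h4 := hN (u.symm (b ⟨i, Nat.lt_of_succ_lt h⟩))
        have h5 : (v' ⟨i, Nat.lt_of_succ_lt h⟩ + 1) * N ≤ v' ⟨i + 1, h⟩ * N :=
          Nat.mul_le_mul_right N h3
        rw [Nat.add_mul] at h5
        omega
      · have h4 : u.symm (b ⟨i, Nat.lt_of_succ_lt h⟩) < u.symm (b ⟨i + 1, h⟩) := by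
          rcases h2 i h with h5 | h5
          · omega
          · exact h5
        rw [h3]
        rcases (hv h4.le).lt_or_eq with h6 | h6
        · left; omega
        · right
          refine ⟨by rw [h6], ?_⟩
          have := tie v hv u h1 _ _ h4 h6
          rwa [apply_symm_apply, apply_symm_apply] at this
    refine ⟨fun i => ?_, mono_of_adj _ (fun i h => ?_), fun i h => ?_, ?_, ?_⟩
    · have h3 := hN (u.symm (b i))
      have h4 := hN' i
      have h5 : (v' i + 1) * N ≤ N * N := Nat.mul_le_mul_right N h4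
      rw [Nat.add_mul] at h5
      omega
    · rcases hadj i h with h3 | h3
      · exact h3.le
      · exact h3.1.le
    · rcases hadj i h with h3 | h3
      · exact Or.inl h3
      · exact Or.inr h3.2
    · congr 1
      funext i
      exact hdiv i _ (hN _)
    · have : (fun i => (v' i * N + v (u.symm (b i))) % N) = fun i => v ((u.symm * b) i) := by
        funext i
        exact hmod i _ (hN _)
      rw [this]
      exact cont_comp v (u.symm * b)
  · intro u hu u' hu' heq
    rw [mem_filter] at hu hu'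
    have h1 : (fun p => v (u.symm p)) = fun p => v (u'.symm p) := by
      funext p
      have h2 := congrFun heq (b.symm p)
      simp only [apply_symm_apply] at h2
      omega
    rw [eq_sort v hv u hu.2.1, eq_sort v hv u' hu'.2.1, h1]
  · intro z hz
    rw [mem_filter, mem_WW] at hz
    obtain ⟨hz1, hz2, hz3, hz4, hz5⟩ := hz
    have hy : (fun i => z i / N) = v' :=
      mono_unique _ _ (fun i j hij => Nat.div_le_div_right (hz2 hij)) hv' hz4
    set X : Fin n → ℕ := fun p => z (b.symm p) % N with hX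
    set u := Tuple.sort X with hu
    have hXu : (fun i => X (u i)) = v := by
      refine mono_unique _ _ (Tuple.monotone_sort X) hv ?_
      show cont (fun i => X (u i)) = cont v
      rw [cont_comp X u, ← hz5]
      have : (fun i => z i % N) = fun i => X (b i) := by
        funext i
        rw [hX]; simp only [symm_apply_apply]
      rw [this, cont_comp X b]
    have hvX : ∀ p, v (u.symm p) = X p := by
      intro p
      rw [← congrFun hXu (u.symm p), apply_symm_apply]
    have htie := (Tuple.eq_sort_iff.mp hu).2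
    have hSS : SS v u := by
      intro i h
      have m1 : v ⟨i, Nat.lt_of_succ_lt h⟩ ≤ v ⟨i + 1, h⟩ := hv (by
        show i ≤ i + 1
        omega)
      rcases m1.lt_or_eq with h3 | h3
      · exact Or.inl h3
      · right
        apply htie
        · show i < i + 1
          omega
        · have e1 := congrFun hXu ⟨i, Nat.lt_of_succ_lt h⟩
          have e2 := congrFun hXu ⟨i + 1, h⟩
          rw [e1, e2, h3]
    refine ⟨u, ?_, ?_⟩
    · rw [mem_filter]
      refine ⟨mem_univ _, hSS, ?_⟩
      intro i h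
      have m1 : v' ⟨i, Nat.lt_of_succ_lt h⟩ ≤ v' ⟨i + 1, h⟩ := hv' (by
        show i ≤ i + 1
        omega)
      rcases m1.lt_or_eq with h3 | h3
      · exact Or.inl h3
      · right
        have e1 : z ⟨i, Nat.lt_of_succ_lt h⟩ / N = z ⟨i + 1, h⟩ / N := by
          have a1 := congrFun hy ⟨i, Nat.lt_of_succ_lt h⟩
          have a2 := congrFun hy ⟨i + 1, h⟩
          rw [a1, a2, h3]
        have m2 : z ⟨i, Nat.lt_of_succ_lt h⟩ ≤ z ⟨i + 1, h⟩ := hz2 (by
          show i ≤ i + 1
          omega)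
        have d1 := Nat.div_add_mod (z ⟨i, Nat.lt_of_succ_lt h⟩) N
        have d2 := Nat.div_add_mod (z ⟨i + 1, h⟩) N
        rw [e1] at d1
        have x1 : v (u.symm (b ⟨i, Nat.lt_of_succ_lt h⟩)) = z ⟨i, Nat.lt_of_succ_lt h⟩ % N := by
          rw [hvX, hX]; simp only [symm_apply_apply]
        have x2 : v (u.symm (b ⟨i + 1, h⟩)) = z ⟨i + 1, h⟩ % N := by
          rw [hvX, hX]; simp only [symm_apply_apply]
        rcases lt_trichotomy (u.symm (b ⟨i, Nat.lt_of_succ_lt h⟩)) (u.symm (b ⟨i + 1, h⟩))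
          with h4 | h4 | h4
        · exact h4
        · exfalso
          have := b.injective (u.symm.injective h4)
          have := congrArg Fin.val this
          simp at this
        · exfalso
          have h5 := hv h4.le
          rw [x1, x2] at h5
          have h6 : z ⟨i, Nat.lt_of_succ_lt h⟩ = z ⟨i + 1, h⟩ := by omega
          have h7 : b ⟨i, Nat.lt_of_succ_lt h⟩ < b ⟨i + 1, h⟩ := by
            rcases hz3 i h with h8 | h8
            · omega
            · exact h8
          have h9 := tie v hv u hSS _ _ h4 (by rw [x1, x2, h6])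
          rw [apply_symm_apply, apply_symm_apply] at h9
          exact absurd h7 (not_lt.mpr h9.le)
    · funext i
      have a1 := congrFun hy i
      have x1 : v (u.symm (b i)) = z i % N := by
        rw [hvX, hX]; simp only [symm_apply_apply]
      show v' i * N + v (u.symm (b i)) = z i
      rw [x1, ← a1, mul_comm]
      exact Nat.div_add_mod (z i) N

/-! ### Transposition of the two digits -/

/-- exchange the two base-`N` digits of the numbers below `N * N` -/
def tr (N z : ℕ) : ℕ := if z < N * N then (z % N) * N + z / N else z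

lemma tr_facts (N z : ℕ) (hz : z < N * N) :
    tr N z < N * N ∧ tr N z / N = z % N ∧ tr N z % N = z / N := by
  have h0 : 0 < N := by
    rcases Nat.eq_zero_or_pos N with h | h
    · subst h; omega
    · exact h
  have h1 : z / N < N := (Nat.div_lt_iff_lt_mul h0).mpr hz
  have h2 : z % N < N := Nat.mod_lt z h0
  unfold tr
  rw [if_pos hz]
  refine ⟨?_, ?_, ?_⟩
  · have h5 : (z % N + 1) * N ≤ N * N := Nat.mul_le_mul_right N h2
    rw [Nat.add_mul] at h5
    omega
  · rw [mul_comm, Nat.mul_add_div h0, Nat.div_eq_of_lt h1]; rfl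
  · rw [mul_comm, Nat.mul_add_mod, Nat.mod_eq_of_lt h1]

lemma tr_tr (N z : ℕ) : tr N (tr N z) = z := by
  by_cases hz : z < N * N
  · obtain ⟨h1, h2, h3⟩ := tr_facts N z hz
    have h4 : tr N (tr N z) = (tr N z % N) * N + tr N z / N := by
      conv_lhs => rw [tr]
      rw [if_pos h1]
    rw [h4, h2, h3, mul_comm]
    exact Nat.div_add_mod z N
  · have : tr N z = z := by unfold tr; rw [if_neg hz]
    rw [this, this]

/-- as a permutation of the variables -/
def trP (N : ℕ) : Perm ℕ := ⟨tr N, tr N, tr_tr N, tr_tr N⟩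

/-- transpose a word and sort it again -/
def trW (N : ℕ) (z : Fin n → ℕ) : Fin n → ℕ := fun i =>
  tr N (z (Tuple.sort (fun i => tr N (z i)) i))

lemma trW_mono (N : ℕ) (z : Fin n → ℕ) : Monotone (trW N z) :=
  Tuple.monotone_sort (fun i => tr N (z i))

lemma cont_trW (N : ℕ) (z : Fin n → ℕ) (f : ℕ → ℕ) :
    cont (fun i => f (trW N z i)) = cont (fun i => f (tr N (z i))) :=
  cont_comp (fun i => f (tr N (z i))) (Tuple.sort (fun i => tr N (z i)))

lemma trW_trW (N : ℕ) (z : Fin n → ℕ) (hz : Monotone z) : trW N (trW N z) = z := by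
  apply mono_unique _ _ (trW_mono N _) hz
  have h1 := cont_trW N (trW N z) (fun x => x)
  have h2 := cont_trW N z (tr N)
  simp only [tr_tr] at h1 h2
  rw [h1, h2]

open Classical in
/-- the set of words with given digit contents -/
noncomputable def ZZ (N : ℕ) (α β : ℕ →₀ ℕ) : Finset (Fin n → ℕ) :=
  (WW n N).filter fun z => Monotone z ∧ cont (fun i => z i / N) = α ∧
      cont (fun i => z i % N) = β

lemma trW_mem (N : ℕ) (α β : ℕ →₀ ℕ) (z : Fin n → ℕ) (hz : z ∈ ZZ N α β) :
    trW N z ∈ ZZ (n := n) N β α := by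
  unfold ZZ at hz ⊢
  rw [mem_filter, mem_WW] at hz ⊢
  obtain ⟨h1, h2, h3, h4⟩ := hz
  refine ⟨fun i => (tr_facts N _ (h1 _)).1, trW_mono N z, ?_, ?_⟩
  · rw [cont_trW N z (fun x => x / N), ← h4]
    congr 1
    funext i
    exact (tr_facts N _ (h1 _)).2.1
  · rw [cont_trW N z (fun x => x % N), ← h3]
    congr 1
    funext i
    exact (tr_facts N _ (h1 _)).2.2

lemma coeff_Q (B : Finset (Perm (Fin n))) (a : ℕ →₀ ℕ) :
    MvPowerSeries.coeff a (Q B.val) = ∑ b ∈ B, MvPowerSeries.coeff a (Fund n (Des b)) := by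
  unfold Q
  exact map_sum (MvPowerSeries.coeff a) (fun b => Fund n (Des b)) B

open Classical in
lemma sum_symm (B : Finset (Perm (Fin n))) (hB : IsSymm (Q B.val)) (N : ℕ) (α β : ℕ →₀ ℕ) :
    ∑ z ∈ ZZ (n := n) N α β, (∑ b ∈ B, if SS z b then (1 : ℤ) else 0) =
    ∑ z ∈ ZZ (n := n) N β α, (∑ b ∈ B, if SS z b then (1 : ℤ) else 0) := by
  have hq : ∀ z : Fin n → ℕ, Monotone z → (∑ b ∈ B, if SS z b then (1 : ℤ) else 0) =
      MvPowerSeries.coeff (cont z) (Q B.val) := by
    intro z hz
    rw [coeff_Q]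
    exact Finset.sum_congr rfl fun b _ => (coeff_Fund z hz b).symm
  refine Finset.sum_bij' (fun z _ => trW N z) (fun z _ => trW N z) ?_ ?_ ?_ ?_ ?_
  · intro z hz; exact trW_mem N α β z hz
  · intro z hz; exact trW_mem N β α z hz
  · intro z hz
    unfold ZZ at hz; rw [mem_filter] at hz
    exact trW_trW N z hz.2.1
  · intro z hz
    unfold ZZ at hz; rw [mem_filter] at hz
    exact trW_trW N z hz.2.1
  · intro z hz
    unfold ZZ at hz; rw [mem_filter] at hz
    rw [hq z hz.2.1, hq (trW N z) (trW_mono N z)]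
    have h1 : cont (trW N z) = (cont z).mapDomain (trP N) := by
      rw [cont_map]
      exact cont_trW N z (fun x => x)
    rw [h1]
    exact (hB (trP N) (cont z)).symm

open Classical in
/-- The symmetry of the refined counts. -/
lemma count_symm (B : Finset (Perm (Fin n))) (hB : IsSymm (Q B.val)) (v v' : Fin n → ℕ)
    (hv : Monotone v) (hv' : Monotone v') :
    ∑ b ∈ B, ((univ.filter fun u : Perm (Fin n) =>
      SS v u ∧ SS v' (fun i => u.symm (b i))).card : ℤ) =
    ∑ b ∈ B, ((univ.filter fun u : Perm (Fin n) =>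
      SS v' u ∧ SS v (fun i => u.symm (b i))).card : ℤ) := by
  obtain ⟨N, hN, hN'⟩ : ∃ N, (∀ i, v i < N) ∧ ∀ i, v' i < N := by
    refine ⟨∑ i, (v i + v' i) + 1, fun i => ?_, fun i => ?_⟩
    · have := Finset.single_le_sum (f := fun i => v i + v' i) (fun _ _ => Nat.zero_le _)
        (mem_univ i)
      omega
    · have := Finset.single_le_sum (f := fun i => v i + v' i) (fun _ _ => Nat.zero_le _)
        (mem_univ i)
      omega
  have key : ∀ (v v' : Fin n → ℕ), Monotone v → Monotone v' → (∀ i, v i < N) → (∀ i, v' i < N) →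
      ∑ b ∈ B, ((univ.filter fun u : Perm (Fin n) =>
        SS v u ∧ SS v' (fun i => u.symm (b i))).card : ℤ) =
      ∑ z ∈ ZZ (n := n) N (cont v') (cont v), (∑ b ∈ B, if SS z b then (1 : ℤ) else 0) := by
    intro v v' hv hv' hN hN'
    rw [Finset.sum_comm]
    refine Finset.sum_congr rfl fun b _ => ?_
    rw [main_count N v v' hv hv' hN hN' b, Finset.card_filter]
    unfold ZZ
    rw [Finset.sum_filter]
    push_cast
    refine Finset.sum_congr rfl fun z _ => ?_
    by_cases h1 : Monotone z <;> by_cases h2 : SS z b <;>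
      by_cases h3 : cont (fun i => z i / N) = cont v' <;>
      by_cases h4 : cont (fun i => z i % N) = cont v <;> simp [h1, h2, h3, h4]
  rw [key v v' hv hv' hN hN', key v' v hv' hv hN' hN]
  exact sum_symm B hB N _ _

/-- block index of a position with respect to a set of cuts -/
def bw (J : Finset ℕ) (i : Fin n) : ℕ := (J.filter fun k => k < (i : ℕ)).card

lemma bw_mono (J : Finset ℕ) : Monotone (bw (n := n) J) := by
  intro i j hij
  unfold bw
  apply card_le_card
  intro k hk
  rw [mem_filter] at hk ⊢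
  have : (i : ℕ) ≤ j := hij
  exact ⟨hk.1, by omega⟩

lemma bw_lt (J : Finset ℕ) (i : ℕ) (h : i + 1 < n) :
    bw J (⟨i, Nat.lt_of_succ_lt h⟩ : Fin n) < bw J (⟨i + 1, h⟩ : Fin n) ↔ i ∈ J := by
  unfold bw
  constructor
  · intro hlt
    by_contra hc
    have : (J.filter fun k => k < ((⟨i + 1, h⟩ : Fin n) : ℕ)) =
        J.filter fun k => k < ((⟨i, Nat.lt_of_succ_lt h⟩ : Fin n) : ℕ) := by
      ext k
      simp only [mem_filter]
      constructor
      · rintro ⟨h1, h2⟩
        refine ⟨h1, ?_⟩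
        rcases eq_or_ne k i with h3 | h3
        · subst h3; exact absurd h1 hc
        · omega
      · rintro ⟨h1, h2⟩
        exact ⟨h1, by omega⟩
    rw [this] at hlt
    exact lt_irrefl _ hlt
  · intro hi
    apply card_lt_card
    rw [Finset.ssubset_iff_of_subset]
    · refine ⟨i, ?_, ?_⟩
      · rw [mem_filter]; exact ⟨hi, by simp⟩
      · rw [mem_filter]; simp
    · intro k hk
      rw [mem_filter] at hk ⊢
      refine ⟨hk.1, ?_⟩
      have := hk.2
      simp only at this ⊢
      omega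

lemma SS_bw (J : Finset ℕ) (u : Perm (Fin n)) : SS (bw J) u ↔ Des u ⊆ J := by
  rw [SS_iff]
  constructor
  · intro h i hi
    have hi' := hi
    unfold Des at hi'
    rw [mem_filter] at hi'
    obtain ⟨_, h1, _⟩ := hi'
    exact (bw_lt J i h1).mp (h i hi h1)
  · intro h i hi h1
    exact (bw_lt J i h1).mpr (h hi)

open Classical in
/-- the number of pairs contributing to the product on the right -/
noncomputable def fR (B : Finset (Perm (Fin n))) (v : Fin n → ℕ) (J : Finset ℕ) : ℤ :=
  ∑ b ∈ B, ((univ.filter fun d : Perm (Fin n) => Des d⁻¹ = J ∧ SS v (⇑(b * d))).card : ℤ)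

open Classical in
/-- the number of pairs contributing to the product on the left -/
noncomputable def fL (B : Finset (Perm (Fin n))) (v : Fin n → ℕ) (J : Finset ℕ) : ℤ :=
  ∑ b ∈ B, ((univ.filter fun d : Perm (Fin n) => Des d⁻¹ = J ∧ SS v (⇑(d * b))).card : ℤ)

open Classical in
lemma sum_powerset (P : Perm (Fin n) → Prop) (J : Finset ℕ) :
    ∑ K ∈ J.powerset, ((univ.filter fun d : Perm (Fin n) => Des d⁻¹ = K ∧ P d).card : ℤ) =
    ((univ.filter fun d : Perm (Fin n) => Des d⁻¹ ⊆ J ∧ P d).card : ℤ) := by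
  rw [← Nat.cast_sum]
  congr 1
  symm
  rw [Finset.card_eq_sum_card_fiberwise (f := fun d : Perm (Fin n) => Des d⁻¹) (t := J.powerset)]
  · refine Finset.sum_congr rfl fun K hK => ?_
    congr 1
    ext d
    simp only [mem_filter, mem_univ, true_and]
    rw [mem_powerset] at hK
    constructor
    · rintro ⟨⟨h1, h2⟩, h3⟩; exact ⟨h3, h2⟩
    · rintro ⟨h1, h2⟩; exact ⟨⟨h1 ▸ hK, h2⟩, h1⟩
  · intro d hd
    have hd' : d ∈ (univ.filter fun d : Perm (Fin n) => Des d⁻¹ ⊆ J ∧ P d) := hd
    rw [mem_filter] at hd'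
    exact mem_coe.mpr (mem_powerset.mpr hd'.2.1)

lemma sum_fR (B : Finset (Perm (Fin n))) (hB : IsSymm (Q B.val)) (v : Fin n → ℕ) (hv : Monotone v)
    (J : Finset ℕ) : ∑ K ∈ J.powerset, fR B v K = ∑ K ∈ J.powerset, fL B v K := by
  classical
  unfold fR fL
  rw [Finset.sum_comm, Finset.sum_comm (s := J.powerset)]
  simp only [sum_powerset]
  have h := count_symm B hB v (bw J) hv (bw_mono J)
  have e1 : ∀ b : Perm (Fin n),
      (univ.filter fun d : Perm (Fin n) => Des d⁻¹ ⊆ J ∧ SS v (⇑(b * d))).card =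
      (univ.filter fun u : Perm (Fin n) => SS v u ∧ SS (bw J) (fun i => u.symm (b i))).card := by
    intro b
    refine Finset.card_bij (fun d _ => b * d) ?_ ?_ ?_
    · intro d hd
      rw [mem_filter] at hd ⊢
      refine ⟨mem_univ _, hd.2.2, ?_⟩
      have h1 : SS (bw J) (d⁻¹ : Perm (Fin n)) := (SS_bw J d⁻¹).mpr hd.2.1
      have h2 : (fun i => (b * d).symm (b i)) = ((d⁻¹ : Perm (Fin n)) : Fin n → Fin n) := by
        funext i
        have : (b * d).symm (b i) = ((b * d)⁻¹ * b) i := rfl
        rw [this, mul_inv_rev, inv_mul_cancel_right]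
      rw [h2]
      exact h1
    · intro d _ d' _ heq
      exact mul_left_cancel heq
    · intro u hu
      rw [mem_filter] at hu
      refine ⟨b⁻¹ * u, ?_, by rw [mul_inv_cancel_left]⟩
      rw [mem_filter]
      refine ⟨mem_univ _, ?_, ?_⟩
      · rw [← SS_bw]
        have h2 : (((b⁻¹ * u)⁻¹ : Perm (Fin n)) : Fin n → Fin n) = (fun i => u.symm (b i)) := by
          funext i
          rw [mul_inv_rev, inv_inv]
          rfl
        rw [h2]
        exact hu.2.2
      · have h3 : (b : Perm (Fin n)) * (b⁻¹ * u) = u := by rw [mul_inv_cancel_left]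
        rw [h3]; exact hu.2.1
  have e2 : ∀ b : Perm (Fin n),
      (univ.filter fun d : Perm (Fin n) => Des d⁻¹ ⊆ J ∧ SS v (⇑(d * b))).card =
      (univ.filter fun u : Perm (Fin n) => SS (bw J) u ∧ SS v (fun i => u.symm (b i))).card := by
    intro b
    refine Finset.card_bij (fun d _ => d⁻¹) ?_ ?_ ?_
    · intro d hd
      rw [mem_filter] at hd ⊢
      refine ⟨mem_univ _, (SS_bw J d⁻¹).mpr hd.2.1, ?_⟩
      exact hd.2.2
    · intro d _ d' _ heq
      exact inv_injective heq
    · intro u hu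
      rw [mem_filter] at hu
      refine ⟨u⁻¹, ?_, inv_inv u⟩
      rw [mem_filter]
      refine ⟨mem_univ _, ?_, ?_⟩
      · rw [inv_inv, ← SS_bw]; exact hu.2.1
      · exact hu.2.2
  simp only [e1, e2]
  exact h

lemma fR_eq_fL (B : Finset (Perm (Fin n))) (hB : IsSymm (Q B.val)) (v : Fin n → ℕ)
    (hv : Monotone v) (J : Finset ℕ) : fR B v J = fL B v J := by
  induction J using Finset.strongInduction with
  | H J ih =>
    have h := sum_fR B hB v hv J
    rw [← Finset.sum_erase_add _ _ (mem_powerset_self J),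
      ← Finset.sum_erase_add (J.powerset) (fun K => fL B v K) (mem_powerset_self J)] at h
    have h2 : ∑ K ∈ J.powerset.erase J, fR B v K = ∑ K ∈ J.powerset.erase J, fL B v K := by
      refine Finset.sum_congr rfl fun K hK => ?_
      rw [mem_erase, mem_powerset] at hK
      exact ih K (lt_of_le_of_ne hK.2 hK.1)
    linarith

open Classical in
lemma coeff_mprod (A B : Finset (Perm (Fin n))) (v : Fin n → ℕ) (hv : Monotone v) :
    MvPowerSeries.coeff (cont v) (Q (mprod A B)) =
      ∑ a ∈ A, ∑ b ∈ B, if SS v (⇑(a * b)) then (1 : ℤ) else 0 := by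
  have h1 : Q (mprod A B) = ∑ p ∈ A ×ˢ B, Fund n (Des (p.1 * p.2)) := by
    unfold Q mprod
    rw [Multiset.map_map]
    rfl
  rw [h1, map_sum, Finset.sum_product]
  refine Finset.sum_congr rfl fun a _ => Finset.sum_congr rfl fun b _ => ?_
  exact coeff_Fund v hv (a * b)

/-- For every finite set `B` of permutations with symmetric `Q(B)` (in particular for every fine
set) and every inverse descent class, the two products have the same quasisymmetric function. -/
theorem result : ∀ n : ℕ, 1 ≤ n → ∀ B : Finset (Perm (Fin n)), IsSymm (Q B.val) →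
    ∀ J : Finset ℕ, Q (mprod B (invDes n J)) = Q (mprod (invDes n J) B) := by
  classical
  intro n _ B hB J
  apply MvPowerSeries.ext
  intro a
  by_cases ha : ∃ v : Fin n → ℕ, Monotone v ∧ cont v = a
  · obtain ⟨v, hv, rfl⟩ := ha
    rw [coeff_mprod _ _ v hv, coeff_mprod _ _ v hv, Finset.sum_comm (s := invDes n J)]
    have h := fR_eq_fL B hB v hv J
    unfold fR fL at h
    have e1 : ∀ P : Perm (Fin n) → Prop,
        ((univ.filter fun d : Perm (Fin n) => Des d⁻¹ = J ∧ P d).card : ℤ) =
        ∑ d ∈ invDes n J, if P d then (1 : ℤ) else 0 := by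
      intro P
      unfold invDes
      rw [Finset.sum_filter, Finset.card_filter]
      push_cast
      refine Finset.sum_congr rfl fun d _ => ?_
      by_cases h1 : Des d⁻¹ = J <;> by_cases h2 : P d <;> simp [h1, h2]
    simp only [e1] at h
    exact h
  · push Not at ha
    have h0 : ∀ C : Multiset (Perm (Fin n)), MvPowerSeries.coeff a (Q C) = 0 := by
      intro C
      unfold Q
      induction C using Multiset.induction_on with
      | empty => simp
      | cons c C ih =>
        rw [Multiset.map_cons, Multiset.sum_cons, map_add, ih, add_zero]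
        exact coeff_Fund_zero a ha _
    rw [h0, h0]

end Pool.Agent.Results.MP_4faf9f_co.FineProducts
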